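import Pool.Agent.Helper34.SQ.GoalsT

set_option autoImplicit false

namespace Pool.Agent.Helper55.SQ

open Matrix Pool.Agent.Helper19.SQ Pool.Agent.Helper34.SQ

section
variable {A : Type} [Ring A] [Algebra ℂ A] {κ : Type} [Fintype κ] [DecidableEq κ]

/-- a rank one matrix under a tracial functional -/
theorem tr_rank (τ : A →ₗ[ℂ] ℂ) (h : ∀ a b, τ (a * b) = τ (b * a)) (u v : κ → A)
    (M N : Matrix κ κ A) :
    τ (Matrix.trace (M * Matrix.vecMulVec u v * N)) = τ (v ⬝ᵥ ((N * M) *ᵥ u)) := by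
  rw [mul_assoc, trace_comm_of_tr h, mul_assoc]
  set Z := N * M with hZ
  have e1 : Matrix.trace (Matrix.vecMulVec u v * Z) = ∑ i, ∑ j, u i * v j * Z j i := by
    simp only [Matrix.trace, Matrix.diag_apply, Matrix.mul_apply, Matrix.vecMulVec_apply]
  have e2 : v ⬝ᵥ (Z *ᵥ u) = ∑ j, ∑ i, v j * (Z j i * u i) := by
    simp only [dotProduct, Matrix.mulVec, Finset.mul_sum]
  rw [e1, e2, map_sum, map_sum]
  simp only [map_sum]
  rw [Finset.sum_comm]
  refine Finset.sum_congr rfl fun j _ => Finset.sum_congr rfl fun i _ => ?_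
  rw [mul_assoc, h, mul_assoc]

theorem dot_mul (v w : κ → A) (x : A) : v ⬝ᵥ (fun y => w y * x) = (v ⬝ᵥ w) * x := by
  simp only [dotProduct, Finset.sum_mul, mul_assoc]

theorem mulVec_mul (M : Matrix κ κ A) (w : κ → A) (x : A) :
    M *ᵥ (fun y => w y * x) = fun y => (M *ᵥ w) y * x := by
  funext y
  simp only [Matrix.mulVec, dotProduct, Finset.sum_mul, mul_assoc]

theorem vmv_mulVec (u v w : κ → A) : Matrix.vecMulVec u v *ᵥ w = fun y => u y * (v ⬝ᵥ w) := by
  funext y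
  simp only [Matrix.mulVec, dotProduct, Matrix.vecMulVec_apply, Finset.mul_sum, mul_assoc]

/-- `v Y'^j Y^i u` -/
theorem c_eq (Y Y' : Matrix κ κ A) (u v : κ → A) (hY : Y = Y' + Matrix.vecMulVec u v)
    (j : ℕ) : ∀ i : ℕ, v ⬝ᵥ ((Y' ^ j * Y ^ i) *ᵥ u) =
      bvu v u Y (i + j) - ∑ r ∈ Finset.range j, bvu v u Y' r * bvu v u Y (i + j - 1 - r) := by
  induction j with
  | zero =>
    intro i
    simp [bvu]
  | succ j ih =>
    intro i
    have h1 : Y' ^ (j + 1) * Y ^ i = Y' ^ j * Y ^ (i + 1) - Y' ^ j * (Matrix.vecMulVec u v * Y ^ i) := by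
      have h2 : Y' = Y - Matrix.vecMulVec u v := by rw [hY]; abel
      rw [pow_succ Y' j, mul_assoc]
      nth_rewrite 2 [h2]
      rw [sub_mul, mul_sub, pow_succ' Y i]
    have h3 : (Y' ^ j * (Matrix.vecMulVec u v * Y ^ i)) *ᵥ u
        = fun y => (Y' ^ j *ᵥ u) y * bvu v u Y i := by
      rw [← Matrix.mulVec_mulVec, ← Matrix.mulVec_mulVec, vmv_mulVec, mulVec_mul]
      rfl
    rw [h1, Matrix.sub_mulVec, dotProduct_sub, ih, h3, dot_mul]
    have h4 : v ⬝ᵥ (Y' ^ j *ᵥ u) = bvu v u Y' j := rfl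
    rw [h4, Finset.sum_range_succ]
    have h5 : i + (j + 1) - 1 - j = i := by omega
    have h6 : i + 1 + j = i + (j + 1) := by ring
    rw [h5, h6]
    abel

theorem pow_diff (Y Y' W : Matrix κ κ A) (hY : Y = Y' + W) (k : ℕ) :
    Y ^ k - Y' ^ k = ∑ j ∈ Finset.range k, Y ^ (k - 1 - j) * W * Y' ^ j := by
  induction k with
  | zero => simp
  | succ k ih =>
    have h1 : Y ^ (k + 1) - Y' ^ (k + 1) = Y * (Y ^ k - Y' ^ k) + W * Y' ^ k := by
      have h2 : W = Y - Y' := by rw [hY]; abel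
      rw [h2, pow_succ', pow_succ', mul_sub, sub_mul]
      abel
    rw [h1, ih, Finset.sum_range_succ, Finset.mul_sum]
    congr 1
    · refine Finset.sum_congr rfl fun j hj => ?_
      have hj' : j < k := Finset.mem_range.mp hj
      have h3 : k + 1 - 1 - j = (k - 1 - j) + 1 := by omega
      rw [h3, pow_succ']
      simp only [mul_assoc]
    · have h3 : k + 1 - 1 - k = 0 := by omega
      rw [h3, pow_zero, one_mul]

theorem sum_eq (b : A) (f : ℕ → A) (n : ℕ) :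
    ∑ j ∈ Finset.range n, (b - ∑ r ∈ Finset.range j, f r)
      = (n : ℂ) • b - ∑ r ∈ Finset.range n, ((n : ℂ) - 1 - r) • f r := by
  induction n with
  | zero => simp
  | succ n ih =>
    have h1 : ∑ r ∈ Finset.range n, (((n + 1 : ℕ) : ℂ) - 1 - r) • f r
        = ∑ r ∈ Finset.range n, ((n : ℂ) - 1 - r) • f r + ∑ r ∈ Finset.range n, f r := by
      rw [← Finset.sum_add_distrib]
      refine Finset.sum_congr rfl fun r _ => ?_
      have : (((n + 1 : ℕ) : ℂ) - 1 - r) = ((n : ℂ) - 1 - r) + 1 := by push_cast; ring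
      rw [this, add_smul, one_smul]
    have h2 : (((n + 1 : ℕ) : ℂ) - 1 - n) = 0 := by push_cast; ring
    rw [Finset.sum_range_succ, ih, Finset.sum_range_succ, h1, h2, zero_smul, add_zero]
    have h3 : ((n + 1 : ℕ) : ℂ) • b = (n : ℂ) • b + b := by
      push_cast
      rw [add_smul, one_smul]
    rw [h3]
    abel

end

theorem t_tr : Pool.Agent.Helper34.SQ.S_TR := by
  intro A _ _ κ _ _ Y Y' D u v x τ hY hD hu hτ k
  rcases k with _ | k
  · simp [piv]
  have hc : ∀ i, Y ^ i * D = D * Y ^ i := fun i => (Commute.pow_left (show Commute Y D from hD) i)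
  have h1 : τ (Matrix.trace (Y ^ (k + 1) * D)) - τ (Matrix.trace (Y' ^ (k + 1) * D))
      = ∑ j ∈ Finset.range (k + 1), τ ((v ⬝ᵥ ((Y' ^ j * Y ^ (k - j)) *ᵥ u)) * x) := by
    rw [← map_sub, ← Matrix.trace_sub, ← sub_mul, pow_diff Y Y' _ hY (k + 1), Finset.sum_mul,
      Matrix.trace_sum, map_sum]
    refine Finset.sum_congr rfl fun j hj => ?_
    have h2 : k + 1 - 1 - j = k - j := by omega
    rw [h2, mul_assoc (Y ^ (k - j) * Matrix.vecMulVec u v), tr_rank τ hτ]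
    have h3 : Y' ^ j * D * Y ^ (k - j) = Y' ^ j * Y ^ (k - j) * D := by
      rw [mul_assoc, ← hc, mul_assoc]
    rw [h3, ← Matrix.mulVec_mulVec, hu, mulVec_mul, dot_mul]
  rw [h1, ← map_sum, ← Finset.sum_mul]
  congr 2
  have h4 : ∀ j ∈ Finset.range (k + 1), v ⬝ᵥ ((Y' ^ j * Y ^ (k - j)) *ᵥ u)
      = bvu v u Y k - ∑ r ∈ Finset.range j, bvu v u Y' r * bvu v u Y (k - 1 - r) := by
    intro j hj
    have hj' : j < k + 1 := Finset.mem_range.mp hj
    rw [c_eq Y Y' u v hY]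
    have h5 : k - j + j = k := by omega
    rw [h5]
  rw [Finset.sum_congr rfl h4, sum_eq]
  change _ = ((k : ℂ) + 1) • bvu v u Y k
    - ∑ r ∈ Finset.range k, ((k : ℂ) - r) • (bvu v u Y' r * bvu v u Y (k - 1 - r))
  have h6 : (((k + 1 : ℕ) : ℂ) - 1 - k) = 0 := by push_cast; ring
  rw [Finset.sum_range_succ, h6, zero_smul, add_zero]
  have h7 : ((k + 1 : ℕ) : ℂ) = (k : ℂ) + 1 := by push_cast; ring
  rw [h7]
  congr 1
  refine Finset.sum_congr rfl fun r _ => ?_
  have h8 : (k : ℂ) + 1 - 1 - r = (k : ℂ) - r := by ring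
  rw [h8]

end Pool.Agent.Helper55.SQ
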